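import Pool.Agent.Y372.UF.Stm

/-!
Project UF (helper372): the statement `S_GEN`.
-/

set_option autoImplicit false

open Polynomial

namespace Pool.Agent.Y277.UF

open Pool.Agent.Y372.UF

theorem aeval_eq (p : ℝ[X]) (z : ℂ) :
    (aeval z p : ℂ) = (p.map (algebraMap ℝ ℂ)).eval z := by
  rw [aeval_def, eval_map]

theorem not_const (p : ℝ[X]) (hp : 1 ≤ p.natDegree) (z₀ : ℂ) :
    ¬ ∀ᶠ z in nhds z₀, (aeval z p : ℂ) = aeval z₀ p := by
  intro h
  have hinf : Set.Infinite {z : ℂ | (aeval z p : ℂ) = aeval z₀ p} :=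
    infinite_of_mem_nhds z₀ h
  set r : ℂ[X] := p.map (algebraMap ℝ ℂ) - C (aeval z₀ p) with hr
  have hr0 : r = 0 := by
    refine Polynomial.eq_zero_of_infinite_isRoot r (hinf.mono ?_)
    intro z hz
    have hz' : (aeval z p : ℂ) = aeval z₀ p := hz
    show IsRoot r z
    rw [IsRoot.def, hr, eval_sub, eval_C, ← aeval_eq, hz', sub_self]
  have h1 : p.map (algebraMap ℝ ℂ) = C (aeval z₀ p : ℂ) := by
    rw [hr] at hr0
    exact sub_eq_zero.1 hr0
  have h2 : (p.map (algebraMap ℝ ℂ)).natDegree = p.natDegree :=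
    natDegree_map_eq_of_injective (algebraMap ℝ ℂ).injective p
  rw [h1, natDegree_C] at h2
  omega

theorem nhds_image (p : ℝ[X]) (hp : 1 ≤ p.natDegree) (z₀ : ℂ) (V : Set ℂ) (hV : V ∈ nhds z₀) :
    (fun z : ℂ => (aeval z p : ℂ)) '' V ∈ nhds (aeval z₀ p : ℂ) := by
  have han : AnalyticAt ℂ (fun z : ℂ => (aeval z p : ℂ)) z₀ := by
    have h1 : (fun z : ℂ => (aeval z p : ℂ)) = fun z => (p.map (algebraMap ℝ ℂ)).eval z := by
      funext z
      exact aeval_eq p z
    rw [h1]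
    have h2 : Differentiable ℂ (fun z => (p.map (algebraMap ℝ ℂ)).eval z) :=
      (p.map (algebraMap ℝ ℂ)).differentiable
    exact h2.analyticAt z₀
  rcases han.eventually_constant_or_nhds_le_map_nhds with h | h
  · exact absurd h (not_const p hp z₀)
  · exact h (Filter.image_mem_map hV)

theorem dense_compl_curve (p : ℝ[X]) :
    Dense (Set.range (fun t : ℝ => (aeval (Complex.exp ((t : ℂ) * Complex.I)) p : ℂ)))ᶜ := by
  have hc : ContDiff ℝ 1 (fun t : ℝ => (aeval (Complex.exp ((t : ℂ) * Complex.I)) p : ℂ)) := by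
    have h1 : (fun t : ℝ => (aeval (Complex.exp ((t : ℂ) * Complex.I)) p : ℂ)) =
        fun t : ℝ => (p.map (algebraMap ℝ ℂ)).eval (Complex.exp ((t : ℂ) * Complex.I)) := by
      funext t
      exact aeval_eq p _
    rw [h1]
    have h2 : ContDiff ℂ 1 (fun z => (p.map (algebraMap ℝ ℂ)).eval z) :=
      (p.map (algebraMap ℝ ℂ)).differentiable.contDiff
    have h3 : ContDiff ℝ 1 (fun t : ℝ => Complex.exp ((t : ℂ) * Complex.I)) := by
      have h4 : ContDiff ℝ 1 (fun t : ℝ => (t : ℂ) * Complex.I) :=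
        Complex.ofRealCLM.contDiff.mul contDiff_const
      exact h4.cexp
    exact (h2.restrict_scalars ℝ).comp h3
  exact hc.dense_compl_range_of_finrank_lt_finrank (by simp)

theorem isCompact_curve (p : ℝ[X]) :
    IsCompact (Set.range (fun t : ℝ => (aeval (Complex.exp ((t : ℂ) * Complex.I)) p : ℂ))) := by
  have h1 : Set.range (fun t : ℝ => (aeval (Complex.exp ((t : ℂ) * Complex.I)) p : ℂ)) =
      (fun z : ℂ => (aeval z p : ℂ)) '' (Metric.sphere (0 : ℂ) 1) := by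
    ext w
    constructor
    · rintro ⟨t, rfl⟩
      refine ⟨Complex.exp ((t : ℂ) * Complex.I), ?_, rfl⟩
      rw [mem_sphere_zero_iff_norm, Complex.norm_exp_ofReal_mul_I]
    · rintro ⟨z, hz, rfl⟩
      rw [mem_sphere_zero_iff_norm] at hz
      refine ⟨Complex.arg z, ?_⟩
      have h5 := Complex.norm_mul_exp_arg_mul_I z
      rw [hz] at h5
      have h6 : Complex.exp ((Complex.arg z : ℂ) * Complex.I) = z := by simpa using h5
      show (aeval (Complex.exp ((Complex.arg z : ℂ) * Complex.I)) p : ℂ) = aeval z p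
      rw [h6]
  rw [h1]
  refine (isCompact_sphere (0 : ℂ) 1).image ?_
  have h2 : (fun z : ℂ => (aeval z p : ℂ)) = fun z => (p.map (algebraMap ℝ ℂ)).eval z := by
    funext z
    exact aeval_eq p z
  rw [h2]
  exact (p.map (algebraMap ℝ ℂ)).continuous

theorem dense_im_ne : Dense {w : ℂ | w.im ≠ 0} := by
  have h1 : ContDiff ℝ 1 (fun t : ℝ => (t : ℂ)) := Complex.ofRealCLM.contDiff
  have h2 := h1.dense_compl_range_of_finrank_lt_finrank (by simp)
  refine h2.mono ?_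
  intro w hw h0
  apply hw
  refine ⟨w.re, ?_⟩
  apply Complex.ext
  · simp
  · simp [h0]

theorem t_GEN : S_GEN := by
  intro p hp hinj
  rw [Set.InjOn] at hinj
  push Not at hinj
  obtain ⟨a, ha, b, hb, hab, hne⟩ := hinj
  have hab' : (aeval a p : ℂ) = aeval b p := hab
  obtain ⟨U, V, hU, hV, haU, hbV, hUV⟩ := t2_separation hne
  have hball : IsOpen (Metric.ball (0 : ℂ) 1) := Metric.isOpen_ball
  have hU1 : U ∩ Metric.ball (0 : ℂ) 1 ∈ nhds a := (hU.inter hball).mem_nhds ⟨haU, ha⟩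
  have hV1 : V ∩ Metric.ball (0 : ℂ) 1 ∈ nhds b := (hV.inter hball).mem_nhds ⟨hbV, hb⟩
  have h1 := nhds_image p hp a _ hU1
  have h2 := nhds_image p hp b _ hV1
  rw [← hab'] at h2
  have h3 := Filter.inter_mem h1 h2
  have hd : Dense ((Set.range (fun t : ℝ =>
      (aeval (Complex.exp ((t : ℂ) * Complex.I)) p : ℂ)))ᶜ ∩ {w : ℂ | w.im ≠ 0}) :=
    (dense_compl_curve p).inter_of_isOpen_left dense_im_ne
      (isCompact_curve p).isClosed.isOpen_compl
  obtain ⟨w, ⟨hwc, hwim⟩, hwO⟩ := hd.inter_nhds_nonempty h3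
  obtain ⟨⟨z₁, ⟨hz1U, hz1b⟩, hz1⟩, ⟨z₂, ⟨hz2V, hz2b⟩, hz2⟩⟩ := hwO
  have hz1' : (aeval z₁ p : ℂ) = w := hz1
  have hz2' : (aeval z₂ p : ℂ) = w := hz2
  have hne2 : z₁ ≠ z₂ := by
    intro h0
    rw [h0] at hz1U
    exact Set.disjoint_left.1 hUV hz1U hz2V
  have hwim' : w.im ≠ 0 := hwim
  rcases lt_or_gt_of_ne hwim' with hneg | hpos
  · refine ⟨(starRingEnd ℂ) w, ?_, ?_, (starRingEnd ℂ) z₁, (starRingEnd ℂ) z₂, ?_, ?_, ?_, ?_, ?_⟩
    · rw [Complex.conj_im]
      linarith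
    · intro t ht
      apply hwc
      refine ⟨-t, ?_⟩
      show (aeval (Complex.exp (((-t : ℝ) : ℂ) * Complex.I)) p : ℂ) = w
      have h4 : Complex.exp (((-t : ℝ) : ℂ) * Complex.I) =
          (starRingEnd ℂ) (Complex.exp ((t : ℂ) * Complex.I)) := by
        rw [← Complex.exp_conj, map_mul, Complex.conj_I, Complex.conj_ofReal]
        push_cast
        ring_nf
      rw [h4, Polynomial.aeval_conj, ht, Complex.conj_conj]
    · intro h0
      exact hne2 ((starRingEnd ℂ).injective h0)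
    · rw [mem_ball_zero_iff] at hz1b ⊢
      rwa [Complex.norm_conj]
    · rw [mem_ball_zero_iff] at hz2b ⊢
      rwa [Complex.norm_conj]
    · rw [Polynomial.aeval_conj, hz1']
    · rw [Polynomial.aeval_conj, hz2']
  · refine ⟨w, hpos, ?_, z₁, z₂, hne2, hz1b, hz2b, hz1', hz2'⟩
    intro t ht
    exact hwc ⟨t, ht⟩

end Pool.Agent.Y277.UF
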