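import Pool.Agent.Y372.UF.Stm

/-!
Project UF (helper372): the statement `S_LIFT`.
-/

set_option autoImplicit false

open Polynomial

namespace Pool.Agent.Y277.UF

open Pool.Agent.Y372.UF

/-- `a` is an argument of `w`. -/
def Ag (w : ℂ) (a : ℝ) : Prop := w = (‖w‖ : ℂ) * Complex.exp ((a : ℂ) * Complex.I)

theorem ag_mul {w₁ w₂ : ℂ} {a₁ a₂ : ℝ} (h₁ : Ag w₁ a₁) (h₂ : Ag w₂ a₂) :
    Ag (w₁ * w₂) (a₁ + a₂) := by
  unfold Ag at *
  rw [norm_mul]
  push_cast
  rw [add_mul, Complex.exp_add]
  calc w₁ * w₂ = ((‖w₁‖ : ℂ) * Complex.exp ((a₁ : ℂ) * Complex.I)) *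
      ((‖w₂‖ : ℂ) * Complex.exp ((a₂ : ℂ) * Complex.I)) := by rw [← h₁, ← h₂]
    _ = _ := by ring

theorem ag_arg (w : ℂ) : Ag w (Complex.arg w) := by
  unfold Ag
  exact (Complex.norm_mul_exp_arg_mul_I w).symm

theorem ag_exp (t : ℝ) : Ag (Complex.exp ((t : ℂ) * Complex.I)) t := by
  unfold Ag
  rw [Complex.norm_exp_ofReal_mul_I]
  simp

theorem slit_of_norm_lt {w : ℂ} (h : ‖w‖ < 1) : 1 - w ∈ Complex.slitPlane := by
  left
  have h1 : w.re ≤ ‖w‖ := Complex.re_le_norm w
  simp only [Complex.sub_re, Complex.one_re]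
  linarith

theorem exp_pi_eq : Complex.exp (((Real.pi : ℝ) : ℂ) * Complex.I) =
    Complex.exp (((-Real.pi : ℝ) : ℂ) * Complex.I) := by
  rw [Complex.exp_pi_mul_I]
  push_cast
  rw [neg_mul, Complex.exp_neg, Complex.exp_pi_mul_I]
  norm_num

theorem one_factor (a : ℂ) (ha : ‖a‖ ≠ 1) : ∃ β : ℝ → ℝ, Continuous β ∧
    (∀ t : ℝ, Ag (Complex.exp ((t : ℂ) * Complex.I) - a) (β t)) ∧
    β Real.pi - β (-Real.pi) = if ‖a‖ < 1 then 2 * Real.pi else 0 := by
  rcases lt_or_gt_of_ne ha with h | h
  · refine ⟨fun t => t + Complex.arg (1 - a * Complex.exp (((-t : ℝ) : ℂ) * Complex.I)), ?_, ?_, ?_⟩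
    · refine continuous_id.add ?_
      rw [continuous_iff_continuousAt]
      intro t
      have h1 : (1 - a * Complex.exp (((-t : ℝ) : ℂ) * Complex.I)) ∈ Complex.slitPlane := by
        apply slit_of_norm_lt
        rw [norm_mul, Complex.norm_exp_ofReal_mul_I, mul_one]
        exact h
      refine (Complex.continuousAt_arg h1).comp
        (f := fun t : ℝ => 1 - a * Complex.exp (((-t : ℝ) : ℂ) * Complex.I)) ?_
      refine Continuous.continuousAt ?_
      fun_prop
    · intro t
      have h1 : Complex.exp ((t : ℂ) * Complex.I) - a =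
          Complex.exp ((t : ℂ) * Complex.I) *
            (1 - a * Complex.exp (((-t : ℝ) : ℂ) * Complex.I)) := by
        have h2 : Complex.exp ((t : ℂ) * Complex.I) * Complex.exp (((-t : ℝ) : ℂ) * Complex.I) = 1 := by
          rw [← Complex.exp_add]
          push_cast
          rw [neg_mul, add_neg_cancel, Complex.exp_zero]
        linear_combination a * h2
      rw [h1]
      exact ag_mul (ag_exp t) (ag_arg _)
    · simp only [neg_neg]
      rw [if_pos h, exp_pi_eq]
      ring
  · have hane : a ≠ 0 := by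
      intro h0
      rw [h0, norm_zero] at h
      linarith
    refine ⟨fun t => Complex.arg (-a) +
      Complex.arg (1 - Complex.exp ((t : ℂ) * Complex.I) / a), ?_, ?_, ?_⟩
    · refine continuous_const.add ?_
      rw [continuous_iff_continuousAt]
      intro t
      have h1 : (1 - Complex.exp ((t : ℂ) * Complex.I) / a) ∈ Complex.slitPlane := by
        apply slit_of_norm_lt
        rw [norm_div, Complex.norm_exp_ofReal_mul_I, div_lt_one (by linarith)]
        exact h
      refine (Complex.continuousAt_arg h1).comp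
        (f := fun t : ℝ => 1 - Complex.exp ((t : ℂ) * Complex.I) / a) ?_
      refine Continuous.continuousAt ?_
      fun_prop
    · intro t
      have h1 : Complex.exp ((t : ℂ) * Complex.I) - a =
          (-a) * (1 - Complex.exp ((t : ℂ) * Complex.I) / a) := by
        field_simp
        ring
      rw [h1]
      exact ag_mul (ag_arg _) (ag_arg _)
    · rw [if_neg (by linarith)]
      show Complex.arg (-a) +
        Complex.arg (1 - Complex.exp (((Real.pi : ℝ) : ℂ) * Complex.I) / a) -
        (Complex.arg (-a) +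
        Complex.arg (1 - Complex.exp (((-Real.pi : ℝ) : ℂ) * Complex.I) / a)) = 0
      rw [exp_pi_eq]
      ring

theorem many_factors (K : ℂ) (s : Multiset ℂ) (hs : ∀ z ∈ s, ‖z‖ ≠ 1) :
    ∃ β : ℝ → ℝ, Continuous β ∧
    (∀ t : ℝ, Ag (K * (s.map (fun z => Complex.exp ((t : ℂ) * Complex.I) - z)).prod) (β t)) ∧
    β Real.pi - β (-Real.pi) = 2 * Real.pi * ((s.filter (fun z => ‖z‖ < 1)).card : ℝ) := by
  induction s using Multiset.induction_on with
  | empty =>
    refine ⟨fun _ => Complex.arg K, continuous_const, ?_, ?_⟩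
    · intro t
      simp only [Multiset.map_zero, Multiset.prod_zero, mul_one]
      exact ag_arg K
    · simp
  | cons a s ih =>
    obtain ⟨β, hβc, hβ, hβd⟩ := ih (fun z hz => hs z (Multiset.mem_cons_of_mem hz))
    obtain ⟨γ, hγc, hγ, hγd⟩ := one_factor a (hs a (Multiset.mem_cons_self a s))
    refine ⟨fun t => γ t + β t, hγc.add hβc, ?_, ?_⟩
    · intro t
      rw [Multiset.map_cons, Multiset.prod_cons]
      have h1 := ag_mul (hγ t) (hβ t)
      have h2 : (Complex.exp ((t : ℂ) * Complex.I) - a) *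
          (K * (s.map (fun z => Complex.exp ((t : ℂ) * Complex.I) - z)).prod) =
          K * ((Complex.exp ((t : ℂ) * Complex.I) - a) *
            (s.map (fun z => Complex.exp ((t : ℂ) * Complex.I) - z)).prod) := by ring
      rw [h2] at h1
      exact h1
    · have h3 : γ Real.pi + β Real.pi - (γ (-Real.pi) + β (-Real.pi)) =
          (γ Real.pi - γ (-Real.pi)) + (β Real.pi - β (-Real.pi)) := by ring
      show γ Real.pi + β Real.pi - (γ (-Real.pi) + β (-Real.pi)) = _
      rw [h3, hγd, hβd]
      by_cases ha : ‖a‖ < 1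
      · rw [if_pos ha, Multiset.filter_cons_of_pos (p := fun z : ℂ => ‖z‖ < 1) s ha, Multiset.card_cons]
        push_cast
        ring
      · rw [if_neg ha, Multiset.filter_cons_of_neg (p := fun z : ℂ => ‖z‖ < 1) s ha]
        ring

theorem t_LIFT : S_LIFT := by
  intro q hq hz
  obtain ⟨z₁, z₂, hne, h1, h2, hz1, hz2⟩ := hz
  have hq0 : q ≠ 0 := by
    intro h0
    apply hq 0
    rw [h0, eval_zero]
  have hfac : C q.leadingCoeff * (q.roots.map (fun a => X - C a)).prod = q :=
    (IsAlgClosed.splits q).eq_prod_roots.symm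
  have hev : ∀ z : ℂ, q.eval z = q.leadingCoeff * (q.roots.map (fun a => z - a)).prod := by
    intro z
    conv_lhs => rw [← hfac]
    rw [eval_mul, eval_C, eval_multiset_prod, Multiset.map_map]
    congr 2
    refine Multiset.map_congr rfl ?_
    intro a _
    simp
  have hs : ∀ z ∈ q.roots, ‖z‖ ≠ 1 := by
    intro z hz hn
    have h3 : q.eval z = 0 := (mem_roots hq0).1 hz
    apply hq (Complex.arg z)
    have h4 : Complex.exp ((Complex.arg z : ℂ) * Complex.I) = z := by
      have h5 := Complex.norm_mul_exp_arg_mul_I z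
      rw [hn] at h5
      simpa using h5
    rw [h4]
    exact h3
  obtain ⟨α, hαc, hα, hαd⟩ := many_factors q.leadingCoeff q.roots hs
  refine ⟨α, hαc, ?_, ?_⟩
  · intro t
    have h3 := hα t
    rw [← hev] at h3
    exact h3
  · rw [hαd]
    have hcard : 2 ≤ (q.roots.filter (fun z => ‖z‖ < 1)).card := by
      have h3 : z₁ ∈ q.roots.filter (fun z => ‖z‖ < 1) := by
        rw [Multiset.mem_filter]
        exact ⟨(mem_roots hq0).2 hz1, by simpa using h1⟩
      have h4 : z₂ ∈ q.roots.filter (fun z => ‖z‖ < 1) := by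
        rw [Multiset.mem_filter]
        exact ⟨(mem_roots hq0).2 hz2, by simpa using h2⟩
      have h5 : ({z₁, z₂} : Finset ℂ) ⊆ (q.roots.filter (fun z => ‖z‖ < 1)).toFinset := by
        intro w hw
        rw [Finset.mem_insert, Finset.mem_singleton] at hw
        rw [Multiset.mem_toFinset]
        rcases hw with hw | hw
        · rw [hw]; exact h3
        · rw [hw]; exact h4
      calc 2 = ({z₁, z₂} : Finset ℂ).card := (Finset.card_pair hne).symm
        _ ≤ _ := Finset.card_le_card h5
        _ ≤ _ := Multiset.toFinset_card_le _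
    have h6 : (2 : ℝ) ≤ ((q.roots.filter (fun z => ‖z‖ < 1)).card : ℝ) := by exact_mod_cast hcard
    have h7 := Real.pi_pos
    nlinarith

end Pool.Agent.Y277.UF
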